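import Pool.Agent.Helper44.CMF.St

/-!
# Project CMF: the families of coverings over a ring `R` (common part of `T1` and `T3`)
-/

set_option autoImplicit false

open Polynomial

namespace Pool.Agent.Helper44.CMF

open Pool.Agent.Helper44.RED

/-- the three roots over a ring -/
def rtR45 {R : Type} [CommRing R] (l : R) : Fin 3 → R := ![0, 1, l]

/-- `∏ (X - r_j)^(m_j)` over a ring -/
noncomputable def dmR45 {R : Type} [CommRing R] (l : R) (m : Fin 3 → Bool) : R[X] :=
  ∏ j, if m j then (X - C (rtR45 l j)) else 1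

noncomputable def qaR45 {R : Type} [CommRing R] (l : R) (M : Fin 3 → Fin 3 → Bool) : Fin 4 → R[X] :=
  ![dmR45 l (M 0), - dmR45 l (M 1), 0, -1]

noncomputable def qbR45 {R : Type} [CommRing R] (l m : R) (M : Fin 3 → Fin 3 → Bool) :
    Fin 4 → R[X] :=
  ![dmR45 l (M 0), 0, - dmR45 l (M 2), - C m]

theorem map_rtR45 {R k : Type} [CommRing R] [Field k] (φ : R →+* k) (l : R) (j : Fin 3) :
    φ (rtR45 l j) = rt (φ l) j := by
  fin_cases j <;> simp [rtR45, rt]

theorem map_dmR45 {R k : Type} [CommRing R] [Field k] (φ : R →+* k) (l : R) (m : Fin 3 → Bool) :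
    algebraMap k[X] (RatFunc k) ((dmR45 l m).map φ) = dm (φ l) m := by
  unfold dmR45 dm
  rw [Polynomial.map_prod, map_prod]
  refine Finset.prod_congr rfl fun j _ => ?_
  split
  · rw [Polynomial.map_sub, Polynomial.map_X, Polynomial.map_C, map_rtR45, map_sub, RatFunc.algebraMap_X,
      RatFunc.algebraMap_C]
    rfl
  · simp

theorem map_qaR45 {R k : Type} [CommRing R] [Field k] (φ : R →+* k) (l : R)
    (M : Fin 3 → Fin 3 → Bool) (i : Fin 4) :
    algebraMap k[X] (RatFunc k) ((qaR45 l M i).map φ) = qa (φ l) M i := by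
  fin_cases i
  · exact map_dmR45 φ l (M 0)
  · show algebraMap k[X] (RatFunc k) ((- dmR45 l (M 1)).map φ) = - dm (φ l) (M 1)
    rw [Polynomial.map_neg, map_neg, map_dmR45]
  · show algebraMap k[X] (RatFunc k) ((0 : R[X]).map φ) = 0
    simp
  · show algebraMap k[X] (RatFunc k) ((-1 : R[X]).map φ) = -1
    simp

theorem map_qbR45 {R k : Type} [CommRing R] [Field k] (φ : R →+* k) (l m : R)
    (M : Fin 3 → Fin 3 → Bool) (i : Fin 4) :
    algebraMap k[X] (RatFunc k) ((qbR45 l m M i).map φ) = qb (φ l) (φ m) M i := by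
  fin_cases i
  · exact map_dmR45 φ l (M 0)
  · show algebraMap k[X] (RatFunc k) ((0 : R[X]).map φ) = 0
    simp
  · show algebraMap k[X] (RatFunc k) ((- dmR45 l (M 2)).map φ) = - dm (φ l) (M 2)
    rw [Polynomial.map_neg, map_neg, map_dmR45]
  · show algebraMap k[X] (RatFunc k) ((- C m : R[X]).map φ) = - RatFunc.C (φ m)
    rw [Polynomial.map_neg, map_neg, Polynomial.map_C, RatFunc.algebraMap_C]

theorem qab_ne45 {R k : Type} [CommRing R] [Field k] (φ : R →+* k) (l m : R)
    (M : Fin 3 → Fin 3 → Bool) (i : Fin 4) :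
    (qaR45 l M i).map φ ≠ 0 ∨ (qbR45 l m M i).map φ ≠ 0 := by
  have key : ∀ p : k[X], algebraMap k[X] (RatFunc k) p ≠ 0 → p ≠ 0 := by
    intro p hp h
    rw [h, map_zero] at hp
    exact hp rfl
  fin_cases i
  · exact Or.inl (key _ (by rw [map_qaR45]; exact dm_ne _ _))
  · exact Or.inl (key _ (by rw [map_qaR45]; exact neg_ne_zero.2 (dm_ne _ _)))
  · exact Or.inr (key _ (by rw [map_qbR45]; exact neg_ne_zero.2 (dm_ne _ _)))
  · exact Or.inl (key _ (by rw [map_qaR45]; exact neg_ne_zero.2 one_ne_zero))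

/-- a matrix with odd columns which is neither row constant nor in the eight special classes -/
def MX45 : Fin 3 → Fin 3 → Bool :=
  ![![true, true, false], ![false, false, true], ![false, false, false]]

theorem MX45_odd : OddCol MX45 := by
  intro j
  fin_cases j <;> rfl

theorem MX45_row : ¬ RowConst MX45 := by
  intro h
  exact absurd (h 0 2) (by decide)

theorem MX45_spec : ¬ Spec8 MX45 := by
  intro h
  exact absurd h.1 (by decide)

/-- the common family theorem -/
theorem fam45 (hPairs : StPairs) (hCov : StCov) (R : Type) [CommRing R] (a b : R)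
    (Sel : (Fin 3 → Fin 3 → Bool) → Prop) (hSel : Sel MX45) :
    ∃ (P v q : ℕ) (g : Fin q → MvPolynomial (Fin v) R), 3 ≤ P ∧
      ∀ (k : Type) [Field k] [IsAlgClosed k] [DecidableEq (RatFunc k)], Big k P → ∀ φ : R →+* k,
        φ a ≠ 0 → φ a ≠ 1 → φ b ≠ 0 → φ b ≠ 1 →
        Good φ g (∃ M, OddCol M ∧ Sel M ∧ ∃ Q, HasClass (φ a) (φ b) Q M) := by
  classical
  haveI : Nonempty {M : Fin 3 → Fin 3 → Bool // OddCol M ∧ Sel M} := ⟨⟨MX45, MX45_odd, hSel⟩⟩
  haveI : Fintype {M : Fin 3 → Fin 3 → Bool // OddCol M ∧ Sel M} := Fintype.ofFinite _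
  obtain ⟨P, v, q, g, hP, h⟩ := hPairs R {M : Fin 3 → Fin 3 → Bool // OddCol M ∧ Sel M} (Fin 4)
    (fun M => qaR45 a M.1) (fun M => qbR45 a b M.1)
  refine ⟨P, v, q, g, hP, ?_⟩
  intro k _ _ _ hB φ ha0 ha1 hb0 hb1
  have h1 := h k hB φ (fun M i => qab_ne45 φ a b M.1 i)
  have h2 : (∃ ξ : {M : Fin 3 → Fin 3 → Bool // OddCol M ∧ Sel M}, ∃ x : Fin 4 → RatFunc k, x ≠ 0 ∧
        qf (fun i => algebraMap k[X] (RatFunc k) ((qaR45 a ξ.1 i).map φ)) x = 0 ∧
        qf (fun i => algebraMap k[X] (RatFunc k) ((qbR45 a b ξ.1 i).map φ)) x = 0) ↔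
      (∃ M, OddCol M ∧ Sel M ∧ ∃ Q, HasClass (φ a) (φ b) Q M) := by
    constructor
    · rintro ⟨⟨M, hM1, hM2⟩, x, hx, hxa, hxb⟩
      refine ⟨M, hM1, hM2, (hCov k (hB.two hP) (φ a) (φ b) ha0 ha1 hb0 hb1 M hM1).1 ⟨x, hx, ?_, ?_⟩⟩
      · have : (fun i => algebraMap k[X] (RatFunc k) ((qaR45 a M i).map φ)) = qa (φ a) M :=
          funext fun i => map_qaR45 φ a M i
        rw [← this]
        exact hxa
      · have : (fun i => algebraMap k[X] (RatFunc k) ((qbR45 a b M i).map φ)) = qb (φ a) (φ b) M :=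
          funext fun i => map_qbR45 φ a b M i
        rw [← this]
        exact hxb
    · rintro ⟨M, hM1, hM2, hQ⟩
      obtain ⟨x, hx, hxa, hxb⟩ := (hCov k (hB.two hP) (φ a) (φ b) ha0 ha1 hb0 hb1 M hM1).2 hQ
      refine ⟨⟨M, hM1, hM2⟩, x, hx, ?_, ?_⟩
      · have : (fun i => algebraMap k[X] (RatFunc k) ((qaR45 a M i).map φ)) = qa (φ a) M :=
          funext fun i => map_qaR45 φ a M i
        show qf (fun i => algebraMap k[X] (RatFunc k) ((qaR45 a M i).map φ)) x = 0
        rw [this]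
        exact hxa
      · have : (fun i => algebraMap k[X] (RatFunc k) ((qbR45 a b M i).map φ)) = qb (φ a) (φ b) M :=
          funext fun i => map_qbR45 φ a b M i
        show qf (fun i => algebraMap k[X] (RatFunc k) ((qbR45 a b M i).map φ)) x = 0
        rw [this]
        exact hxb
  rw [← propext h2]
  exact h1

end Pool.Agent.Helper44.CMF
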